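import Mathlib

/-!
# Doubled partitions and characters of the symmetric group

Definitions used in the disproof of the equality of the two sums of characters over the doubled
partitions.
-/

set_option autoImplicit false

namespace Pool.Agent.R859.OS

open MvPolynomial

/-- The number of parts `ℓ(μ)` of a partition. -/
def len {m : ℕ} (μ : Nat.Partition m) : ℕ := Multiset.card μ.parts

/-- The part `μ_{i+1}` of the partition `μ`, the parts being sorted in weakly decreasing order
(`0` if `i ≥ ℓ(μ)`). -/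
def part {m : ℕ} (μ : Nat.Partition m) (i : ℕ) : ℕ :=
  (μ.parts.sort (fun a b => b ≤ a)).getD i 0

/-- The power sum `p_k(x_1, …, x_L)`. -/
noncomputable def psum (L k : ℕ) : MvPolynomial (Fin L) ℤ := ∑ i : Fin L, X i ^ k

/-- The product `∏_{i<j} (x_i - x_j)` over `1 ≤ i < j ≤ L`. -/
noncomputable def vander (L : ℕ) : MvPolynomial (Fin L) ℤ :=
  ∏ i : Fin L, ∏ j ∈ Finset.Ioi i, (X i - X j)

/-- The value `χ^μ_ν` of the irreducible character of the symmetric group indexed by `μ` on the
permutations of cycle type `ν`, given by Frobenius' formula: with `L = ℓ(μ)`, it is the coefficient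
of `x_1^{μ_1 + L - 1} x_2^{μ_2 + L - 2} ⋯ x_L^{μ_L}` in
`∏_{i<j} (x_i - x_j) * ∏_k p_{ν_k}(x_1, …, x_L)`. -/
noncomputable def chi {m : ℕ} (μ : Nat.Partition m) (ν : Multiset ℕ) : ℤ :=
  coeff (Finsupp.equivFunOnFinite.symm fun i : Fin (len μ) => part μ i + (len μ - 1 - i))
    (vander (len μ) * (ν.map (psum (len μ))).prod)

/-- The doubled partition `λ̃_S`: replace `λ_i` by the single part `2 λ_i` if `i ∈ S`, and by the
two parts `λ_i, λ_i` otherwise (here `i` runs from `0` to `ℓ(λ) - 1`). -/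
def doubled {n : ℕ} (lam : Nat.Partition n) (S : Finset ℕ) : Multiset ℕ :=
  ∑ i ∈ Finset.range (len lam), if i ∈ S then {2 * part lam i} else {part lam i, part lam i}

/-- `μ ∈ R_N(m)`: at most `N` parts, and every part is even. -/
def InR (N : ℕ) {m : ℕ} (μ : Nat.Partition m) : Prop :=
  len μ ≤ N ∧ ∀ a ∈ μ.parts, Even a

/-- `μ ∈ R^c_N(m)`: at most `N` parts, and every part `μ'_j = #{i : μ_i ≥ j}`, `j ≥ 1`, of the
conjugate partition `μ'` is even. -/
def InRc (N : ℕ) {m : ℕ} (μ : Nat.Partition m) : Prop :=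
  len μ ≤ N ∧ ∀ j : ℕ, 1 ≤ j → Even (Multiset.card (μ.parts.filter fun a => j ≤ a))

open Classical in
/-- The sum `A_N(λ)` of the signed character values over the doubled partitions `λ̃_S`,
`S ⊆ {1, …, ℓ(λ)}`, and over `μ ∈ R_{2N+1}(2n)`. -/
noncomputable def sumA (N : ℕ) {n : ℕ} (lam : Nat.Partition n) : ℤ :=
  ∑ S ∈ (Finset.range (len lam)).powerset,
    (-1) ^ Multiset.card (doubled lam S) *
      ∑ μ : Nat.Partition (2 * n) with InR (2 * N + 1) μ, chi μ (doubled lam S)

open Classical in
/-- The sum `B_N(λ)` of the character values over the doubled partitions `λ̃_S`,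
`S ⊆ {1, …, ℓ(λ)}`, and over `μ ∈ R^c_{2N}(2n)`. -/
noncomputable def sumB (N : ℕ) {n : ℕ} (lam : Nat.Partition n) : ℤ :=
  ∑ S ∈ (Finset.range (len lam)).powerset,
      ∑ μ : Nat.Partition (2 * n) with InRc (2 * N) μ, chi μ (doubled lam S)

end Pool.Agent.R859.OS
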