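import Mathlib
import Pool.Agent.R859.OS.Defs
set_option autoImplicit false
namespace Pool.Agent.R859.OS
open MvPolynomial

/-- The exponent vector of a function. -/
noncomputable abbrev vec {L : ℕ} (β : Fin L → ℕ) : Fin L →₀ ℕ := Finsupp.equivFunOnFinite.symm β

theorem coeff_mul_psum (L k : ℕ) (f : MvPolynomial (Fin L) ℤ) (β : Fin L → ℕ) :
    coeff (vec β) (f * psum L k) =
      ∑ i : Fin L, if k ≤ β i then coeff (vec (Function.update β i (β i - k))) f else 0 := by
  classical
  unfold psum
  rw [Finset.mul_sum, coeff_sum]
  refine Finset.sum_congr rfl fun i _ => ?_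
  rw [X_pow_eq_monomial, coeff_mul_monomial', mul_one]
  have h1 : (Finsupp.single i k ≤ vec β) ↔ k ≤ β i := by
    rw [Finsupp.single_le_iff]
    rfl
  by_cases h : k ≤ β i
  · rw [if_pos h, if_pos (h1.2 h)]
    congr 1
    ext j
    by_cases hj : j = i
    · subst hj
      simp
    · simp [Function.update_of_ne hj, Finsupp.single_eq_of_ne hj]
  · rw [if_neg h, if_neg (fun hh => h (h1.1 hh))]

/-- The sign of the difference. -/
def sg (a b : ℕ) : ℤ := if b < a then 1 else if a < b then -1 else 0

theorem coeff_prod_X (L : ℕ) (σ : Equiv.Perm (Fin L)) (β : Fin L → ℕ) :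
    coeff (vec β) (∏ i : Fin L, (X (σ i) : MvPolynomial (Fin L) ℤ) ^ (i : ℕ)) =
      if ∀ j, β j = (σ.symm j : ℕ) then 1 else 0 := by
  classical
  have h : (∏ i : Fin L, (X (σ i) : MvPolynomial (Fin L) ℤ) ^ (i : ℕ)) =
      monomial (vec fun j => (σ.symm j : ℕ)) 1 := by
    rw [monomial_eq, map_one, one_mul, Finsupp.prod_fintype _ _ (fun i => pow_zero _)]
    refine Fintype.prod_equiv σ _ _ fun i => ?_
    simp
  rw [h, coeff_monomial]
  have : (vec (fun j => (σ.symm j : ℕ)) = vec β) ↔ ∀ j, β j = (σ.symm j : ℕ) := by
    rw [Equiv.apply_eq_iff_eq, _root_.funext_iff]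
    exact ⟨fun h j => (h j).symm, fun h j => (h j).symm⟩
  simp only [this]

theorem vander_eq (L : ℕ) :
    vander L = (∏ i : Fin L, ∏ _j ∈ Finset.Ioi i, (-1 : ℤ)) •
      ∑ σ : Equiv.Perm (Fin L), (Equiv.Perm.sign σ : ℤ) •
        ∏ i : Fin L, (X (σ i) : MvPolynomial (Fin L) ℤ) ^ (i : ℕ) := by
  have h := Matrix.det_vandermonde (fun i : Fin L => (X i : MvPolynomial (Fin L) ℤ))
  rw [Matrix.det_apply] at h
  have h2 : (∑ σ : Equiv.Perm (Fin L), (Equiv.Perm.sign σ : ℤ) •
        ∏ i : Fin L, (X (σ i) : MvPolynomial (Fin L) ℤ) ^ (i : ℕ)) =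
        ∏ i : Fin L, ∏ j ∈ Finset.Ioi i, ((X j : MvPolynomial (Fin L) ℤ) - X i) := by
    rw [← h]
    refine Finset.sum_congr rfl fun σ _ => ?_
    rw [Units.smul_def]
    simp [Matrix.vandermonde_apply]
  rw [h2, vander, zsmul_eq_mul]
  push_cast
  rw [← Finset.prod_mul_distrib]
  refine Finset.prod_congr rfl fun i _ => ?_
  rw [← Finset.prod_mul_distrib]
  refine Finset.prod_congr rfl fun j _ => ?_
  ring

theorem coeff_vander (L : ℕ) (β : Fin L → ℕ) :
    coeff (vec β) (vander L) =
      if ∀ i, β i < L then ∏ i : Fin L, ∏ j ∈ Finset.Ioi i, sg (β i) (β j) else 0 := by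
  classical
  rw [vander_eq, coeff_smul, coeff_sum]
  simp only [coeff_smul, coeff_prod_X]
  by_cases hβ : ∀ i, β i < L
  · rw [if_pos hβ]
    by_cases hinj : Function.Injective β
    · -- a permutation
      let f : Fin L → Fin L := fun i => ⟨β i, hβ i⟩
      have hf : Function.Injective f := fun a b hab => hinj (by simpa [f] using hab)
      let τ : Equiv.Perm (Fin L) := Equiv.ofBijective f (Finite.injective_iff_bijective.1 hf)
      have hτ : ∀ i, (τ i : ℕ) = β i := fun i => rfl
      have hsum : (∑ σ : Equiv.Perm (Fin L), (Equiv.Perm.sign σ : ℤ) •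
          (if ∀ j, β j = (σ.symm j : ℕ) then (1 : ℤ) else 0)) = Equiv.Perm.sign τ := by
        rw [Finset.sum_eq_single τ.symm]
        · rw [if_pos]
          · simp
          · intro j
            exact (hτ j).symm
        · intro σ _ hσ
          rw [if_neg, smul_zero]
          intro h
          apply hσ
          have : σ.symm = τ := by
            ext j
            rw [← h j, hτ]
          rw [← this]
          rfl
        · intro h
          exact absurd (Finset.mem_univ _) h
      rw [hsum, Equiv.Perm.sign_eq_prod_prod_Ioi, smul_eq_mul]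
      push_cast
      rw [← Finset.prod_mul_distrib]
      refine Finset.prod_congr rfl fun i _ => ?_
      rw [← Finset.prod_mul_distrib]
      refine Finset.prod_congr rfl fun j hj => ?_
      have hij : i ≠ j := (Finset.mem_Ioi.1 hj).ne
      have hne : β i ≠ β j := fun h => hij (hinj h)
      unfold sg
      rw [← hτ i, ← hτ j] at hne ⊢
      rcases lt_trichotomy (τ i) (τ j) with h | h | h
      · rw [if_pos h, if_neg (by simpa using h.le), if_pos (by simpa using h)]
        simp
      · exact absurd (congrArg Fin.val h) hne
      · rw [if_neg (not_lt.2 h.le), if_pos (by simpa using h)]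
        simp
    · -- two equal entries
      have h0 : (∑ σ : Equiv.Perm (Fin L), (Equiv.Perm.sign σ : ℤ) •
          (if ∀ j, β j = (σ.symm j : ℕ) then (1 : ℤ) else 0)) = 0 := by
        refine Finset.sum_eq_zero fun σ _ => ?_
        rw [if_neg, smul_zero]
        intro h
        apply hinj
        intro a b hab
        rw [h a, h b] at hab
        exact σ.symm.injective (Fin.ext hab)
      rw [h0, smul_zero]
      symm
      rw [Function.Injective] at hinj
      push Not at hinj
      obtain ⟨a, b, hab, hne⟩ := hinj
      wlog hlt : a < b generalizing a b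
      · exact this b a hab.symm hne.symm (lt_of_le_of_ne (not_lt.1 hlt) hne.symm)
      refine Finset.prod_eq_zero (Finset.mem_univ a) ?_
      refine Finset.prod_eq_zero (Finset.mem_Ioi.2 hlt) ?_
      unfold sg
      rw [hab]
      simp
  · rw [if_neg hβ]
    have h0 : (∑ σ : Equiv.Perm (Fin L), (Equiv.Perm.sign σ : ℤ) •
        (if ∀ j, β j = (σ.symm j : ℕ) then (1 : ℤ) else 0)) = 0 := by
      refine Finset.sum_eq_zero fun σ _ => ?_
      rw [if_neg, smul_zero]
      intro h
      apply hβ
      intro i
      rw [h i]
      exact (σ.symm i).isLt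
    rw [h0, smul_zero]


/-! ### Lists -/

/-- The coefficient of a list in the Vandermonde product. -/
def baseL : List ℕ → ℤ
  | [] => 1
  | a :: l => (l.map fun b => sg a b).prod * baseL l

/-- Replace the `i`-th entry `a` by `a - k`, for all `i` with `k ≤ a`. -/
def subs (k : ℕ) : List ℕ → List (List ℕ)
  | [] => []
  | a :: l => (if k ≤ a then [(a - k) :: l] else []) ++ (subs k l).map (fun t => a :: t)

/-- The coefficient of a list in the product of the Vandermonde product and power sums. -/
def comp : List ℕ → List ℕ → ℤ
  | [], l => if l.all (fun b => decide (b < l.length)) then baseL l else 0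
  | k :: ν, l => ((subs k l).map (comp ν)).sum

theorem length_of_mem_subs (k : ℕ) (l t : List ℕ) (h : t ∈ subs k l) : t.length = l.length := by
  induction l generalizing t with
  | nil => simp [subs] at h
  | cons a l ih =>
    simp only [subs, List.mem_append, List.mem_map] at h
    rcases h with h | ⟨s, hs, rfl⟩
    · split_ifs at h
      · simp at h
        simp [h]
      · simp at h
    · simp [ih s hs]

/-- The function of a list. -/
def fn (L : ℕ) (l : List ℕ) : Fin L → ℕ := fun i => l.getD i 0

theorem baseL_eq (l : List ℕ) :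
    (∏ i : Fin l.length, ∏ j ∈ Finset.Ioi i, sg (fn l.length l i) (fn l.length l j)) = baseL l := by
  induction l with
  | nil => simp [baseL]
  | cons a l ih =>
    rw [baseL, ← ih]
    show (∏ i : Fin (l.length + 1), ∏ j ∈ Finset.Ioi i, sg (fn _ (a :: l) i) (fn _ (a :: l) j)) = _
    rw [Fin.prod_univ_succ]
    congr 1
    · rw [Fin.Ioi_zero_eq_map, Finset.prod_map]
      simp only [fn]
      rw [← List.prod_ofFn]
      congr 1
      apply List.ext_getElem
      · simp
      · intro n h1 h2
        simp at h1
        simp
    · refine Finset.prod_congr rfl fun i _ => ?_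
      rw [Fin.Ioi_succ, Finset.prod_map]
      rfl

theorem sum_subs (L k : ℕ) (l : List ℕ) (hl : l.length = L) (G : (Fin L → ℕ) → ℤ) :
    (∑ i : Fin L, if k ≤ fn L l i then G (Function.update (fn L l) i (fn L l i - k)) else 0) =
      ((subs k l).map (fun t => G (fn L t))).sum := by
  induction l generalizing L with
  | nil =>
    simp at hl
    subst hl
    simp [subs]
  | cons a l ih =>
    simp at hl
    subst hl
    rw [Fin.sum_univ_succ, subs, List.map_append, List.sum_append, List.map_map]
    congr 1
    · have h0 : fn (l.length + 1) (a :: l) 0 = a := rfl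
      rw [h0]
      by_cases h : k ≤ a
      · rw [if_pos h, if_pos h]
        simp only [List.map_cons, List.map_nil, List.sum_cons, List.sum_nil, add_zero]
        congr 1
        ext j
        refine Fin.cases ?_ (fun j => ?_) j
        · simp [fn]
        · rw [Function.update_of_ne (Fin.succ_ne_zero j)]
          rfl
      · rw [if_neg h, if_neg h]
        simp
    · have := ih l.length rfl (fun g => G (Fin.cons a g))
      have e1 : ∀ t : List ℕ, (Fin.cons a (fn l.length t) : Fin (l.length + 1) → ℕ) =
          fn (l.length + 1) (a :: t) := by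
        intro t
        ext j
        refine Fin.cases ?_ (fun j => ?_) j
        · rfl
        · rfl
      have e2 : ((fun t => G (fn (l.length + 1) t)) ∘ fun t => a :: t) =
          fun t => G (Fin.cons a (fn l.length t)) := by
        funext t
        rw [Function.comp_apply, e1]
      rw [e2, ← this]
      refine Finset.sum_congr rfl fun i _ => ?_
      have e3 : fn (l.length + 1) (a :: l) i.succ = fn l.length l i := rfl
      rw [e3]
      refine if_congr Iff.rfl ?_ rfl
      congr 1
      rw [← e1, Fin.cons_update]

theorem coeff_comp (L : ℕ) (ν l : List ℕ) (hl : l.length = L) :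
    coeff (vec (fn L l)) (vander L * (ν.map (psum L)).prod) = comp ν l := by
  induction ν generalizing l with
  | nil =>
    subst hl
    rw [List.map_nil, List.prod_nil, mul_one, coeff_vander, comp, baseL_eq]
    refine if_congr ?_ rfl rfl
    simp only [List.all_eq_true, decide_eq_true_eq, fn]
    constructor
    · intro h b hb
      obtain ⟨i, hi, rfl⟩ := List.getElem_of_mem hb
      have := h ⟨i, hi⟩
      simpa [hi] using this
    · intro h i
      rw [List.getD_eq_getElem _ _ i.isLt]
      exact h _ (List.getElem_mem _)
  | cons k ν ih =>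
    rw [List.map_cons, List.prod_cons, mul_comm (psum L k), ← mul_assoc, coeff_mul_psum,
      comp, sum_subs L k l hl (fun g => coeff (vec g) (vander L * (ν.map (psum L)).prod))]
    congr 1
    refine List.map_congr_left fun t ht => ?_
    exact ih t ((length_of_mem_subs k l t ht).trans hl)


/-! ### Partitions -/

/-- The sorted list of parts. -/
def srt {m : ℕ} (μ : Nat.Partition m) : List ℕ := μ.parts.sort (fun a b => b ≤ a)

/-- The list with entries `l_i + (L - 1 - i)`. -/
def shiftL : List ℕ → List ℕ
  | [] => []
  | a :: l => (a + l.length) :: shiftL l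

theorem length_shiftL (l : List ℕ) : (shiftL l).length = l.length := by
  induction l with
  | nil => rfl
  | cons a l ih => simp [shiftL, ih]

theorem shiftL_getD (l : List ℕ) (i : ℕ) (hi : i < l.length) :
    (shiftL l).getD i 0 = l.getD i 0 + (l.length - 1 - i) := by
  induction l generalizing i with
  | nil => simp at hi
  | cons a l ih =>
    cases i with
    | zero => simp [shiftL]
    | succ i =>
      simp only [List.length_cons, Nat.succ_lt_succ_iff] at hi
      have := ih i hi
      simp only [shiftL, List.getD_cons_succ, this, List.length_cons]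
      omega

theorem length_srt {m : ℕ} (μ : Nat.Partition m) : (srt μ).length = len μ := by
  simp [srt, len]

theorem chi_eq {m : ℕ} (μ : Nat.Partition m) (ν : List ℕ) :
    chi μ (ν : Multiset ℕ) = comp ν (shiftL (srt μ)) := by
  rw [← coeff_comp (len μ) ν (shiftL (srt μ)) ((length_shiftL _).trans (length_srt μ)), chi]
  congr 1
  · congr 1
    ext i
    have hi : (i : ℕ) < (srt μ).length := by
      rw [length_srt]
      exact i.isLt
    rw [fn, shiftL_getD _ _ hi, length_srt]
    rfl

/-- All weakly decreasing lists of positive integers, bounded by `b`, with sum `n`. -/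
def enum : ℕ → ℕ → ℕ → List (List ℕ)
  | 0, n, _ => if n = 0 then [[]] else []
  | fuel + 1, n, b => if n = 0 then [[]] else
      (List.range b).flatMap fun a =>
        if a + 1 ≤ n then (enum fuel (n - (a + 1)) (a + 1)).map (fun t => (a + 1) :: t) else []

theorem mem_enum (fuel n b : ℕ) (hf : n ≤ fuel) (l : List ℕ) :
    l ∈ enum fuel n b ↔ l.Pairwise (fun x y => y ≤ x) ∧ (∀ x ∈ l, 0 < x ∧ x ≤ b) ∧ l.sum = n := by
  induction fuel generalizing n b l with
  | zero =>
    obtain rfl : n = 0 := by omega
    simp only [enum, if_true, List.mem_singleton]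
    constructor
    · rintro rfl
      simp
    · rintro ⟨-, h2, h3⟩
      cases l with
      | nil => rfl
      | cons a l =>
        have := (h2 a (by simp)).1
        simp at h3
        omega
  | succ fuel ih =>
    rw [enum]
    by_cases hn : n = 0
    · subst hn
      simp only [if_true, List.mem_singleton]
      constructor
      · rintro rfl
        simp
      · rintro ⟨-, h2, h3⟩
        cases l with
        | nil => rfl
        | cons a l =>
          have := (h2 a (by simp)).1
          simp at h3
          omega
    · rw [if_neg hn]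
      simp only [List.mem_flatMap, List.mem_range]
      constructor
      · rintro ⟨a, ha, h⟩
        split_ifs at h with han
        · rw [List.mem_map] at h
          obtain ⟨t, ht, rfl⟩ := h
          rw [ih (n - (a + 1)) (a + 1) (by omega)] at ht
          obtain ⟨h1, h2, h3⟩ := ht
          refine ⟨?_, ?_, ?_⟩
          · rw [List.pairwise_cons]
            exact ⟨fun x hx => (h2 x hx).2, h1⟩
          · intro x hx
            rw [List.mem_cons] at hx
            rcases hx with rfl | hx
            · omega
            · have := h2 x hx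
              omega
          · rw [List.sum_cons, h3]
            omega
        · simp at h
      · rintro ⟨h1, h2, h3⟩
        cases l with
        | nil =>
          simp at h3
          omega
        | cons x l =>
          have hx := h2 x (by simp)
          rw [List.sum_cons] at h3
          refine ⟨x - 1, by omega, ?_⟩
          have hx1 : x - 1 + 1 = x := by omega
          rw [hx1, if_pos (by omega), List.mem_map]
          refine ⟨l, ?_, rfl⟩
          rw [ih (n - x) x (by omega)]
          rw [List.pairwise_cons] at h1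
          refine ⟨h1.2, ?_, by omega⟩
          intro y hy
          exact ⟨(h2 y (List.mem_cons_of_mem _ hy)).1, h1.1 y hy⟩

theorem sum_partition (m : ℕ) (P : Nat.Partition m → Prop) [DecidablePred P]
    (P' : List ℕ → Bool) (hP : ∀ μ, P μ ↔ P' (srt μ) = true)
    (hnd : ((enum m m m).filter P').Nodup) (f : List ℕ → ℤ) :
    (∑ μ : Nat.Partition m with P μ, f (srt μ)) = (((enum m m m).filter P').map f).sum := by
  classical
  rw [← List.sum_toFinset f hnd]
  refine Finset.sum_bij (fun μ _ => srt μ) ?_ ?_ ?_ ?_
  · intro μ hμ
    rw [Finset.mem_filter] at hμ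
    rw [List.mem_toFinset, List.mem_filter]
    refine ⟨?_, (hP μ).1 hμ.2⟩
    rw [mem_enum m m m le_rfl]
    have hs : (srt μ).sum = m := by
      rw [← Multiset.sum_coe, srt, Multiset.sort_eq, μ.parts_sum]
    refine ⟨Multiset.pairwise_sort _ _, ?_, hs⟩
    intro x hx
    refine ⟨?_, ?_⟩
    · exact μ.parts_pos (by simpa [srt] using hx)
    · rw [← hs]
      exact List.le_sum_of_mem hx
  · intro μ _ μ' _ h
    ext1
    rw [← Multiset.sort_eq μ.parts (fun a b => b ≤ a), ← Multiset.sort_eq μ'.parts (fun a b => b ≤ a)]
    exact congrArg _ h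
  · intro l hl
    rw [List.mem_toFinset, List.mem_filter, mem_enum m m m le_rfl] at hl
    obtain ⟨⟨h1, h2, h3⟩, h4⟩ := hl
    let μ : Nat.Partition m :=
      { parts := (l : Multiset ℕ)
        parts_pos := fun {x} hx => (h2 x (by simpa using hx)).1
        parts_sum := by simpa using h3 }
    have hμ : srt μ = l := by
      have hp : (srt μ).Perm l := by
        rw [← Multiset.coe_eq_coe, srt, Multiset.sort_eq]
      exact hp.eq_of_pairwise' (Multiset.pairwise_sort _ _) h1
    refine ⟨μ, ?_, hμ⟩
    rw [Finset.mem_filter]
    refine ⟨Finset.mem_univ _, ?_⟩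
    rw [hP, hμ]
    exact h4
  · intro μ _
    rfl

/-- The test for `InR`. -/
def tR (N : ℕ) (l : List ℕ) : Bool := decide (l.length ≤ N) && l.all fun a => decide (a % 2 = 0)

/-- The test for `InRc`. -/
def tRc (N m : ℕ) (l : List ℕ) : Bool := decide (l.length ≤ N) &&
  (List.range m).all fun j => decide ((l.filter fun a => decide (j + 1 ≤ a)).length % 2 = 0)

theorem inR_iff (N : ℕ) {m : ℕ} (μ : Nat.Partition m) : InR N μ ↔ tR N (srt μ) = true := by
  rw [InR, tR, Bool.and_eq_true, decide_eq_true_eq, length_srt, List.all_eq_true]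
  refine and_congr_right fun _ => ?_
  constructor
  · intro h a ha
    have := h a (by simpa [srt] using ha)
    rw [Nat.even_iff] at this
    simpa using this
  · intro h a ha
    have := h a (by simpa [srt] using ha)
    rw [Nat.even_iff]
    simpa using this

theorem inRc_iff (N : ℕ) {m : ℕ} (μ : Nat.Partition m) : InRc N μ ↔ tRc N m (srt μ) = true := by
  rw [InRc, tRc, Bool.and_eq_true, decide_eq_true_eq, length_srt, List.all_eq_true]
  refine and_congr_right fun _ => ?_
  have key : ∀ j : ℕ, Multiset.card (μ.parts.filter fun a => j ≤ a) =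
      ((srt μ).filter fun a => decide (j ≤ a)).length := by
    intro j
    have : μ.parts = ((srt μ : List ℕ) : Multiset ℕ) := (Multiset.sort_eq _ _).symm
    conv_lhs => rw [this]
    rw [Multiset.filter_coe, Multiset.coe_card]
  constructor
  · intro h j _
    have := h (j + 1) (by omega)
    rw [key, Nat.even_iff] at this
    simpa using this
  · intro h j hj
    rw [key]
    by_cases hjm : j ≤ m
    · have := h (j - 1) (by simp; omega)
      rw [show j - 1 + 1 = j by omega] at this
      rw [Nat.even_iff]
      simpa using this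
    · have h0 : ((srt μ).filter fun a => decide (j ≤ a)) = [] := by
        rw [List.filter_eq_nil_iff]
        intro a ha hja
        have h1 : a ≤ m := by
          have hs : (srt μ).sum = m := by
            rw [← Multiset.sum_coe, srt, Multiset.sort_eq, μ.parts_sum]
          rw [← hs]
          exact List.le_sum_of_mem ha
        have h2 : j ≤ a := by simpa using hja
        omega
      rw [h0]
      simp

/-- The sum over `R_N(m)`. -/
def compR (N m : ℕ) (ν : List ℕ) : ℤ :=
  (((enum m m m).filter (tR N)).map fun l => comp ν (shiftL l)).sum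

/-- The sum over `R^c_N(m)`. -/
def compRc (N m : ℕ) (ν : List ℕ) : ℤ :=
  (((enum m m m).filter (tRc N m)).map fun l => comp ν (shiftL l)).sum

open Classical in
theorem sumR_eq (N m : ℕ) (ν : List ℕ) (hnd : ((enum m m m).filter (tR N)).Nodup) :
    (∑ μ : Nat.Partition m with InR N μ, chi μ (ν : Multiset ℕ)) = compR N m ν := by
  rw [compR, ← sum_partition m (InR N) (tR N) (inR_iff N) hnd]
  exact Finset.sum_congr rfl fun μ _ => chi_eq μ ν

open Classical in
theorem sumRc_eq (N m : ℕ) (ν : List ℕ) (hnd : ((enum m m m).filter (tRc N m)).Nodup) :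
    (∑ μ : Nat.Partition m with InRc N μ, chi μ (ν : Multiset ℕ)) = compRc N m ν := by
  rw [compRc, ← sum_partition m (InRc N) (tRc N m) (inRc_iff N) hnd]
  exact Finset.sum_congr rfl fun μ _ => chi_eq μ ν

/-- The partition `(5, 3)` of `8`. -/
def lam53 : Nat.Partition 8 where
  parts := {5, 3}
  parts_pos := by
    intro i hi
    simp at hi
    omega
  parts_sum := by simp

theorem srt_lam53 : srt lam53 = [5, 3] := by
  have hp : (srt lam53).Perm [5, 3] := by
    rw [← Multiset.coe_eq_coe, srt, Multiset.sort_eq]
    rfl
  exact hp.eq_of_pairwise' (Multiset.pairwise_sort _ _) (by decide)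

theorem len_lam53 : len lam53 = 2 := rfl

theorem part0_lam53 : part lam53 0 = 5 := by
  show (srt lam53).getD 0 0 = 5
  rw [srt_lam53]
  rfl

theorem part1_lam53 : part lam53 1 = 3 := by
  show (srt lam53).getD 1 0 = 3
  rw [srt_lam53]
  rfl


theorem nd1 : ((enum 16 16 16).filter (tR 7)).Nodup := by decide +kernel
theorem nd2 : ((enum 16 16 16).filter (tRc 6 16)).Nodup := by decide +kernel

theorem a1 : compR 7 16 [5, 5, 3, 3] = 11 := by decide +kernel
theorem a2 : compR 7 16 [10, 3, 3] = 3 := by decide +kernel
theorem a3 : compR 7 16 [5, 5, 6] = 5 := by decide +kernel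
theorem a4 : compR 7 16 [10, 6] = 1 := by decide +kernel
theorem b1 : compRc 6 16 [5, 5, 3, 3] = 13 := by decide +kernel
theorem b2 : compRc 6 16 [10, 3, 3] = -1 := by decide +kernel
theorem b3 : compRc 6 16 [5, 5, 6] = -3 := by decide +kernel
theorem b4 : compRc 6 16 [10, 6] = -1 := by decide +kernel

theorem d1 : doubled lam53 ∅ = (([5, 5, 3, 3] : List ℕ) : Multiset ℕ) := by
  rw [doubled, len_lam53, Finset.sum_range_succ, Finset.sum_range_one, part0_lam53, part1_lam53,
    if_neg (by decide), if_neg (by decide)]
  decide

theorem d2 : doubled lam53 {0} = (([10, 3, 3] : List ℕ) : Multiset ℕ) := by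
  rw [doubled, len_lam53, Finset.sum_range_succ, Finset.sum_range_one, part0_lam53, part1_lam53,
    if_pos (by decide), if_neg (by decide)]
  decide

theorem d3 : doubled lam53 {1} = (([5, 5, 6] : List ℕ) : Multiset ℕ) := by
  rw [doubled, len_lam53, Finset.sum_range_succ, Finset.sum_range_one, part0_lam53, part1_lam53,
    if_neg (by decide), if_pos (by decide)]
  decide

theorem d4 : doubled lam53 {0, 1} = (([10, 6] : List ℕ) : Multiset ℕ) := by
  rw [doubled, len_lam53, Finset.sum_range_succ, Finset.sum_range_one, part0_lam53, part1_lam53,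
    if_pos (by decide), if_pos (by decide)]
  decide

theorem pw (f : Finset ℕ → ℤ) :
    (∑ S ∈ (Finset.range 2).powerset, f S) = f ∅ + f {0} + f {1} + f {0, 1} := by
  have h : (Finset.range 2).powerset = {∅, {0}, {1}, {0, 1}} := by decide
  rw [h, Finset.sum_insert (by decide), Finset.sum_insert (by decide),
    Finset.sum_insert (by decide), Finset.sum_singleton]
  ring

theorem sumA_lam53 : sumA 3 lam53 = 4 := by
  rw [sumA, len_lam53, pw, d1, d2, d3, d4]
  rw [show 2 * 3 + 1 = 7 from rfl, show 2 * 8 = 16 from rfl]
  rw [sumR_eq 7 16 _ nd1, sumR_eq 7 16 _ nd1, sumR_eq 7 16 _ nd1, sumR_eq 7 16 _ nd1, a1, a2, a3,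
    a4]
  simp only [Multiset.coe_card, List.length_cons, List.length_nil]
  norm_num

theorem sumB_lam53 : sumB 3 lam53 = 8 := by
  rw [sumB, len_lam53, pw, d1, d2, d3, d4]
  rw [show 2 * 3 = 6 from rfl, show 2 * 8 = 16 from rfl]
  rw [sumRc_eq 6 16 _ nd2, sumRc_eq 6 16 _ nd2, sumRc_eq 6 16 _ nd2, sumRc_eq 6 16 _ nd2, b1, b2,
    b3, b4]
  norm_num

end Pool.Agent.R859.OS
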